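import Pool.Agent.H12Tensor

set_option autoImplicit false

namespace Pool.Agent.Results.MP_a9d09b_co.Tensorization

open Pool.Agent.H12Tensor

/-- **Main theorem.** For every prime `p` there are `n` and a 4-dimensional tensor `A` of side `n`
over `𝔽_p` with `r(A) < r(Id)` such that for every `c < 1` there is `m ≥ 1` with
`r(A^{⊗m}) ≥ c^m r(Id^{⊗m})`; here `r` is the partition rank or the analytic rank (the same `A`
serves for both). -/
theorem result (p : ℕ) [Fact p.Prime] : ∃ (n : ℕ) (A : (Fin 4 → Fin n) → ZMod p),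
    (prank A < prank (idT (ZMod p) 4 (Fin n)) ∧
      ∀ c : ℝ, c < 1 → ∃ m : ℕ, 1 ≤ m ∧
        c ^ m * prank (tpow (idT (ZMod p) 4 (Fin n)) m) ≤ prank (tpow A m)) ∧
    (arank A < arank (idT (ZMod p) 4 (Fin n)) ∧
      ∀ c : ℝ, c < 1 → ∃ m : ℕ, 1 ≤ m ∧
        c ^ m * arank (tpow (idT (ZMod p) 4 (Fin n)) m) ≤ arank (tpow A m)) :=
  main p

end Pool.Agent.Results.MP_a9d09b_co.Tensorization
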